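import Mathlib
import Pool.Agent.MP_e3ce59_an.H41.Main

/-!
A subgroup of the group of piecewise continuous permutations of the circle up to finite
indeterminacy that is stably realizable but not realizable.  The subgroup is given by its full
preimage `Γ` in the group of permutations of the circle.
-/

namespace Pool.Agent.Results.MP_e3ce59_an.StablyNotRealizable

open Pool.Agent.MP_e3ce59_an.H41 Equiv Sum

theorem result :
    ∃ Γ : Subgroup (Perm (AddCircle (1 : ℝ))),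
      (∀ f ∈ Γ, ∃ F : Set (AddCircle (1 : ℝ)), F.Finite ∧ ContinuousOn f Fᶜ) ∧
      (∀ f : Perm (AddCircle (1 : ℝ)), {x | f x ≠ x}.Finite → f ∈ Γ) ∧
      (∃ (X : Type) (Λ : Subgroup (Perm (AddCircle (1 : ℝ) ⊕ X))),
        (∀ g ∈ Λ, {x : X | g (inr x) ≠ inr x}.Finite) ∧
        (∀ g ∈ Λ, ∃ f ∈ Γ, {x | g (inl x) ≠ inl (f x)}.Finite) ∧
        (∀ f ∈ Γ, ∃! g, g ∈ Λ ∧ {x | g (inl x) ≠ inl (f x)}.Finite)) ∧
      ¬ ∃ Λ : Subgroup (Perm (AddCircle (1 : ℝ))),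
        Λ ≤ Γ ∧ ∀ f ∈ Γ, ∃! g, g ∈ Λ ∧ {x | g x ≠ f x}.Finite := by
  obtain ⟨α, β, hαβ⟩ := exists_indep
  obtain ⟨s, hs, hgen⟩ := exists_generic hαβ
  refine ⟨Gam α β s, ?_, ?_, ⟨Bool, Lam α β s, fun _ _ => Set.toFinite _, ?_, ?_⟩, ?_⟩
  · rintro f ⟨g, hg, h⟩
    obtain ⟨f', h1, h2⟩ := lam_lifts α β s hg
    obtain ⟨F, hF, h3⟩ := h2.of_near (h1.near h)
    exact ⟨F, hF, fun x hx => (h3 x hx).continuousWithinAt⟩
  · intro f hf
    exact ⟨1, one_mem _, lifts_one.of_near (Near.symm hf)⟩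
  · intro g hg
    obtain ⟨f, h1, -⟩ := lam_lifts α β s hg
    exact ⟨f, ⟨g, hg, h1⟩, h1⟩
  · rintro f ⟨g, hg, h⟩
    refine ⟨g, ⟨hg, h⟩, ?_⟩
    rintro g' ⟨hg', h'⟩
    have := lam_faithful α β hs hgen (mul_mem (inv_mem hg) hg')
      (by simpa using h.inv.mul (show Lifts g' f from h'))
    exact (inv_mul_eq_one.1 this).symm
  · rintro ⟨Λ, -, h⟩
    exact not_realizable α β hs hgen Λ h

end Pool.Agent.Results.MP_e3ce59_an.StablyNotRealizable
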